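import Pool.Agent.Q276.Dih.Grp

/-!
# Turán's (3,4)-problem for 3-graphs with a transitive (generalised) dihedral group of automorphisms

Let `G` be a 3-graph on `n` vertices in which every four vertices contain an edge.

(1) Let `R` be a set of half of the vertices, `n = 2m`, and let `T` be a family of involutions of
the vertex set which exchange `R` and its complement, such that every `x ∈ R` and `y ∉ R` are
exchanged by exactly one of them. Then at least half of the triples which meet `R` and its
complement are edges, up to the number of times the symmetry is violated; with de Caen's bound for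
the triples inside `R` and inside its complement this gives the density `11 / 24 > 4 / 9`, and the
bound of Turán's conjecture, for every `n`.

(2) Turán's conjectured bound (the exact number for every `n`) and the density `11 / 24` hold if
`G` is invariant under a group which is transitive on the vertices and has a subgroup of index two
outside which all elements are involutions, for instance a dihedral group.
-/

set_option autoImplicit false

open Finset

namespace Pool.Agent.Results.MP_466853_co.DihedralSymmetries

/-- `G` is a 3-graph in which every four vertices contain an edge. -/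
def Covering {V : Type} [DecidableEq V] (G : Finset (Finset V)) : Prop :=
  (∀ e ∈ G, e.card = 3) ∧ ∀ S : Finset V, S.card = 4 → ∃ e ∈ G, e ⊆ S

/-- The edges of `G` which contain two points exchanged by `τ` and are not mapped to an edge. -/
def broken {V : Type} [DecidableEq V] (G : Finset (Finset V)) (τ : Equiv.Perm V) :
    Finset (Finset V) :=
  G.filter fun e => e.image τ ∉ G ∧ ∃ x ∈ e, τ x ≠ x ∧ τ x ∈ e

/-- The family `T` of involutions exchanges `R` and its complement, and every point of `R` is
exchanged with every point outside `R` by exactly one of them. -/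
def Exchanging {V : Type} [DecidableEq V] (R : Finset V) (T : Finset (Equiv.Perm V)) : Prop :=
  (∀ τ ∈ T, τ * τ = 1) ∧ (∀ τ ∈ T, ∀ x, τ x ∈ R ↔ x ∉ R) ∧
    ∀ x ∈ R, ∀ y ∉ R, (T.filter fun τ => τ x = y).card = 1

/-- The number of edges of Turán's construction on `n` vertices: `k(k-1)(2k-1)`, `k²(2k-1)`,
`k²(2k+1)` for `n = 3k`, `3k+1`, `3k+2`. -/
def turan (n : ℕ) : ℕ :=
  if n % 3 = 0 then (n / 3) * (n / 3 - 1) * (2 * (n / 3) - 1)
  else if n % 3 = 1 then (n / 3) ^ 2 * (2 * (n / 3) - 1)
  else (n / 3) ^ 2 * (2 * (n / 3) + 1)

/-- `G` is invariant under the group `D`, which is transitive on the vertices and has a subgroup of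
index two outside which all elements are involutions. -/
def DihedralSymmetric (D V : Type) [Group D] [MulAction D V] [DecidableEq V]
    (G : Finset (Finset V)) : Prop :=
  (∀ x y : V, ∃ g : D, g • x = y) ∧
    (∃ N : Subgroup D, N.index = 2 ∧ ∀ g : D, g ∉ N → g * g = 1) ∧
    ∀ (g : D) (e : Finset V), e ∈ G → e.image (fun x => g • x) ∈ G

theorem result :
    -- involutions exchanging two halves
    (∀ (V : Type) [Fintype V] [DecidableEq V] (G : Finset (Finset V)), Covering G →
      ∀ (R : Finset V) (T : Finset (Equiv.Perm V)), Exchanging R T →
        Fintype.card V = 2 * R.card →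
        (R.card ^ 2 * (R.card - 1) ≤
          2 * (G.filter fun e => (∃ x ∈ e, x ∈ R) ∧ ∃ x ∈ e, x ∉ R).card +
            ∑ τ ∈ T, (broken G τ).card) ∧
        (R.card * (R.card - 1) * (11 * R.card - 6) ≤
          18 * G.card + 9 * ∑ τ ∈ T, (broken G τ).card) ∧
        (27 * ∑ τ ∈ T, (broken G τ).card ≤ R.card ^ 3 → turan (Fintype.card V) ≤ G.card)) ∧
    -- transitive generalised dihedral groups
    (∀ (V D : Type) [Fintype V] [DecidableEq V] [Group D] [MulAction D V]
      (G : Finset (Finset V)), Covering G → DihedralSymmetric D V G →
        turan (Fintype.card V) ≤ G.card ∧ (14 ≤ Fintype.card V →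
          Fintype.card V * (Fintype.card V - 2) * (11 * Fintype.card V - 12) ≤
            144 * G.card)) := by
  refine ⟨?_, ?_⟩
  · intro V _ _ G hG R T hT hR
    have h1 := Pool.Agent.Q276.Dih.general hG.2 hG.1 R T hT hR
    have h2 := Pool.Agent.Q276.Dih.lower hG.2 hG.1 R T hT hR
    refine ⟨h1, h2, ?_⟩
    intro hB
    rw [hR]
    exact Pool.Agent.Q276.Dih.turan_two _ _ _ h2 hB
  · intro V D _ _ _ _ G hG ⟨htr, ⟨N, hN⟩, hinv⟩
    haveI : MulAction.IsPretransitive D V := ⟨htr⟩
    exact Pool.Agent.Q276.Dih.main hG.2 hG.1 N hN hinv

end Pool.Agent.Results.MP_466853_co.DihedralSymmetries
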