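import Pool.Agent.Q275.TC.DatV

/-!
# Turán's `(3,4)`-problem: 3-graphs whose link graphs have VC-dimension at most one

Turán's conjecture says that a `K_4^3`-free 3-graph on `n` vertices has at most
`(5/9 + o(1)) C(n,3)` edges. Here this is proved, together with stability, for the `K_4^3`-free
3-graphs whose link graphs have VC-dimension at most one: if `p`, `q` are two vertices of the link
graph of `v`, then one of the four sets of the common neighbours of `p` and `q`, of the neighbours of
`p` only, of `q` only, and of the further vertices which are adjacent to neither of them is empty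
(`p` and `q` themselves are not counted). It is enough that there are only `o(n^7)` septuples of
vertices which violate the condition. All link graphs of Turán's construction satisfy it.

Outline: the members of the library's list `famM 2` of two six-vertex 3-graphs have the following
property. In each homogeneous blow-up without `K_4^3` there are a vertex `v` and two vertices `p`,
`q` for which the four sets are not empty. This is checked with decision trees
(`Pool/Agent/Q275/TC/DatV.lean`); the rest is the theorem `mainG` of the library (blow-ups, Ramsey's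
theorem, sum of squares certificates with stability).
-/

set_option autoImplicit false
set_option maxRecDepth 100000
set_option maxHeartbeats 4000000
open Finset
namespace Pool.Agent.Results.MP_466853_co.LinkVCDimension
open Pool.Agent.TH773.Turan34
open Pool.Agent.Y47.BU
open Pool.Agent.H122R2.N6 hiding K43Free
open Pool.Agent.TH773.ST

/-- the position of the vertex `w s` -/
def pos (s : Bool × Bool) : Fin 7 := ⟨3 + s.1.toNat + 2 * s.2.toNat, by
  have := s.1.toNat_le
  have := s.2.toNat_le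
  omega⟩

theorem pos_inj : ∀ s s' : Bool × Bool, pos s = pos s' → s = s' := by decide

theorem pos_ne : ∀ s : Bool × Bool, pos s ≠ 0 ∧ pos s ≠ 1 ∧ pos s ≠ 2 := by decide

/-- the adjacencies to two vertices in a link graph of Turán's construction -/
theorem turan_cells : ∀ a b c : Fin 3, ∃ s : Bool × Bool, ∀ d : Fin 3,
    ¬ ((Rf a b d = 1 ↔ s.1 = true) ∧ (Rf a c d = 1 ↔ s.2 = true)) := by
  decide +kernel

open scoped Classical

/-- In the link graph of `v` the vertices `p` and `q` are shattered by the four vertices `w s`: the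
vertex `w s` is adjacent to `p` if and only if `s.1` is true, and adjacent to `q` if and only if
`s.2` is true. All seven vertices are different. -/
def Shattered {n : ℕ} (H : Finset (Finset (Fin n))) (v p q : Fin n) (w : Bool × Bool → Fin n) :
    Prop :=
  v ≠ p ∧ v ≠ q ∧ p ≠ q ∧ Function.Injective w ∧ (∀ s, w s ≠ v ∧ w s ≠ p ∧ w s ≠ q) ∧
    ∀ s, (({v, p, w s} : Finset (Fin n)) ∈ H ↔ s.1 = true) ∧
      (({v, q, w s} : Finset (Fin n)) ∈ H ↔ s.2 = true)

/-- The number of septuples `(v, p, q, w)` for which `p`, `q` are shattered by `w` in the link graph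
of `v`. -/
noncomputable def shattered {n : ℕ} (H : Finset (Finset (Fin n))) : ℕ :=
  ((univ : Finset (Fin n × Fin n × Fin n × (Bool × Bool → Fin n))).filter fun z =>
    Shattered H z.1 z.2.1 z.2.2.1 z.2.2.2).card

/-- All link graphs of `H` have VC-dimension at most one: for a vertex `v` and two other vertices
`p`, `q` one of the four adjacencies to `p` and `q` in the link graph of `v` does not occur among the
vertices different from `v, p, q`. -/
def LinkVCOne {n : ℕ} (H : Finset (Finset (Fin n))) : Prop :=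
  ∀ v p q : Fin n, v ≠ p → v ≠ q → p ≠ q → ∃ s : Bool × Bool, ∀ w : Fin n, w ≠ v → w ≠ p → w ≠ q →
    ¬ ((({v, p, w} : Finset (Fin n)) ∈ H ↔ s.1 = true) ∧
      (({v, q, w} : Finset (Fin n)) ∈ H ↔ s.2 = true))

theorem shattered_eq_zero {n : ℕ} {H : Finset (Finset (Fin n))} (h : LinkVCOne H) :
    shattered H = 0 := by
  unfold shattered
  rw [card_eq_zero, filter_eq_empty_iff]
  rintro ⟨v, p, q, w⟩ - ⟨h1, h2, h3, -, h5, h6⟩
  obtain ⟨s, hs⟩ := h v p q h1 h2 h3
  exact hs (w s) (h5 s).1 (h5 s).2.1 (h5 s).2.2 (h6 s)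

theorem sS_le {n : ℕ} (H : Finset (Finset (Fin n))) :
    (sS (Pool.Agent.Q275.TC.PV.S (Fin n) (tri H))).card ≤ shattered H := by
  unfold shattered
  refine card_le_card_of_injOn (fun f : Fin 7 → Fin n => (f 0, f 1, f 2, fun s => f (pos s)))
    ?_ ?_
  · intro f hf
    change Fin 7 → Fin n at f
    obtain ⟨hi0, hS⟩ := mem_sS.mp (mem_coe.mp hf)
    have hi : Function.Injective (f : Fin 7 → Fin n) := hi0
    have hQ : [tri H (f 0) (f 1) (f 3), tri H (f 0) (f 2) (f 3), tri H (f 0) (f 1) (f 4),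
        tri H (f 0) (f 2) (f 4), tri H (f 0) (f 1) (f 5), tri H (f 0) (f 2) (f 5),
        tri H (f 0) (f 1) (f 6), tri H (f 0) (f 2) (f 6)] = [0, 0, 1, 0, 0, 1, 1, 1] := by
      have h1 : (([tri H (f 0) (f 1) (f 3), tri H (f 0) (f 2) (f 3), tri H (f 0) (f 1) (f 4),
        tri H (f 0) (f 2) (f 4), tri H (f 0) (f 1) (f 5), tri H (f 0) (f 2) (f 5),
        tri H (f 0) (f 1) (f 6), tri H (f 0) (f 2) (f 6)] : List ℕ) ==
          [0, 0, 1, 0, 0, 1, 1, 1]) = true := hS
      exact eq_of_beq h1
    simp only [List.cons.injEq, and_true] at hQ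
    obtain ⟨q1, q2, q3, q4, q5, q6, q7, q8⟩ := hQ
    refine mem_coe.mpr (mem_filter.mpr ⟨mem_univ _, ?_⟩)
    refine ⟨hi.ne (by simp), hi.ne (by simp), hi.ne (by simp), ?_, ?_, ?_⟩
    · intro s s' h
      exact pos_inj s s' (hi h)
    · intro s
      exact ⟨hi.ne (pos_ne s).1, hi.ne (pos_ne s).2.1, hi.ne (pos_ne s).2.2⟩
    · rintro ⟨a, b⟩
      change (({f 0, f 1, f (pos (a, b))} : Finset (Fin n)) ∈ H ↔ a = true) ∧
        (({f 0, f 2, f (pos (a, b))} : Finset (Fin n)) ∈ H ↔ b = true)
      rw [← tri_iff, ← tri_iff]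
      rcases a <;> rcases b
      · change (tri H (f 0) (f 1) (f 3) = 1 ↔ false = true) ∧
          (tri H (f 0) (f 2) (f 3) = 1 ↔ false = true)
        rw [q1, q2]; simp
      · change (tri H (f 0) (f 1) (f 5) = 1 ↔ false = true) ∧
          (tri H (f 0) (f 2) (f 5) = 1 ↔ true = true)
        rw [q5, q6]; simp
      · change (tri H (f 0) (f 1) (f 4) = 1 ↔ true = true) ∧
          (tri H (f 0) (f 2) (f 4) = 1 ↔ false = true)
        rw [q3, q4]; simp
      · change (tri H (f 0) (f 1) (f 6) = 1 ↔ true = true) ∧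
          (tri H (f 0) (f 2) (f 6) = 1 ↔ true = true)
        rw [q7, q8]; simp
  · intro f _ f' _ h
    change Fin 7 → Fin n at f f'
    have h0 : f 0 = f' 0 := (Prod.mk.inj h).1
    have h1 : f 1 = f' 1 := (Prod.mk.inj (Prod.mk.inj h).2).1
    have h2 : f 2 = f' 2 := (Prod.mk.inj (Prod.mk.inj (Prod.mk.inj h).2).2).1
    have h3 := (Prod.mk.inj (Prod.mk.inj (Prod.mk.inj h).2).2).2
    have e3 : f 3 = f' 3 := congrFun h3 (false, false)
    have e4 : f 4 = f' 4 := congrFun h3 (true, false)
    have e5 : f 5 = f' 5 := congrFun h3 (false, true)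
    have e6 : f 6 = f' 6 := congrFun h3 (true, true)
    funext i
    fin_cases i
    exacts [h0, h1, h2, e3, e4, e5, e6]

theorem turan_vc {n : ℕ} (g : Fin n → Fin 3) : LinkVCOne (turan g) := by
  intro v p q h1 h2 h3
  obtain ⟨s, hs⟩ := turan_cells (g v) (g p) (g q)
  refine ⟨s, fun w w1 w2 w3 h => hs (g w) ?_⟩
  rw [mem_turan h1 w1.symm w2.symm, mem_turan h2 w1.symm w3.symm] at h
  exact h

/-- (1) For every `ε > 0` there are `δ > 0` and `n0` such that every `K_4^3`-free 3-graph `H` on
`n ≥ n0` vertices with at most `δ n^7` septuples `(v, p, q, w)` for which `p`, `q` are shattered by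
the four vertices `w` in the link graph of `v` has at most `(5/9 + ε) C(n,3)` edges, and satisfies
`|H ∆ turan g| ≤ 1161216000 ((5/54) n³ - |H|) + ε n³` for some division `g` of the vertices into
three classes. (2) In particular this is true if all link graphs of `H` have VC-dimension at most
one. (3) Turán's construction is `K_4^3`-free and its link graphs have VC-dimension at most one. -/
theorem result :
    (∀ ε : ℝ, 0 < ε → ∃ δ : ℝ, 0 < δ ∧ ∃ n0 : ℕ, ∀ n, n0 ≤ n → ∀ H : Finset (Finset (Fin n)),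
      (∀ e ∈ H, e.card = 3) → K43Free H → (shattered H : ℝ) ≤ δ * (n : ℝ) ^ 7 →
      (H.card : ℝ) ≤ (5 / 9 + ε) * (n.choose 3 : ℝ) ∧ ∃ g : Fin n → Fin 3,
        ((symmDiff H (turan g)).card : ℝ) ≤
          1161216000 * (5 / 54 * (n : ℝ) ^ 3 - H.card) + ε * (n : ℝ) ^ 3) ∧
    (∀ ε : ℝ, 0 < ε → ∃ n0 : ℕ, ∀ n, n0 ≤ n → ∀ H : Finset (Finset (Fin n)),
      (∀ e ∈ H, e.card = 3) → K43Free H → LinkVCOne H →
      (H.card : ℝ) ≤ (5 / 9 + ε) * (n.choose 3 : ℝ) ∧ ∃ g : Fin n → Fin 3,
        ((symmDiff H (turan g)).card : ℝ) ≤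
          1161216000 * (5 / 54 * (n : ℝ) ^ 3 - H.card) + ε * (n : ℝ) ^ 3) ∧
    (∀ (n : ℕ) (g : Fin n → Fin 3), K43Free (turan g) ∧ LinkVCOne (turan g)) := by
  have main : ∀ ε : ℝ, 0 < ε → ∃ δ : ℝ, 0 < δ ∧ ∃ n0 : ℕ, ∀ n, n0 ≤ n →
      ∀ H : Finset (Finset (Fin n)),
      (∀ e ∈ H, e.card = 3) → K43Free H → (shattered H : ℝ) ≤ δ * (n : ℝ) ^ 7 →
      (H.card : ℝ) ≤ (5 / 9 + ε) * (n.choose 3 : ℝ) ∧ ∃ g : Fin n → Fin 3,
        ((symmDiff H (turan g)).card : ℝ) ≤
          1161216000 * (5 / 54 * (n : ℝ) ^ 3 - H.card) + ε * (n : ℝ) ^ 3 := by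
    intro ε hε
    obtain ⟨δ, hδ, n0, h⟩ := Pool.Agent.Q275.TC.bound 2 Pool.Agent.Q275.TC.okPV
      Pool.Agent.Q275.TC.okV hε
    refine ⟨δ, hδ, n0, fun n hn H h3 hK hs => h n hn H h3 hK ?_⟩
    exact le_trans (by exact_mod_cast sS_le H) hs
  refine ⟨main, ?_, fun n g => ⟨turan_free g, turan_vc g⟩⟩
  intro ε hε
  obtain ⟨δ, hδ, n0, h⟩ := main ε hε
  refine ⟨n0, fun n hn H h3 hK hs => h n hn H h3 hK ?_⟩
  rw [shattered_eq_zero hs]
  simp only [Nat.cast_zero]
  positivity

end Pool.Agent.Results.MP_466853_co.LinkVCDimension
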