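import Pool.Agent.Q275.TC.DatT

/-!
# Turán's `(3,4)`-problem: 3-graphs with few traces on small sets of vertices

Turán's conjecture says that a `K_4^3`-free 3-graph on `n` vertices has at most
`(5/9 + o(1)) C(n,3)` edges. The trace of a pair `x, y` of vertices on a set `Z` of other vertices
is the set of the `z ∈ Z` for which `{x, y, z}` is an edge. In Turán's construction the pairs have at
most six traces on each set `Z`. Here the conjecture is proved, together with stability, for the
`K_4^3`-free 3-graphs with at most six traces on all sets of three vertices, and for those with at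
most seven traces on all sets of four vertices (bounds for the shatter function of the neighbourhoods
of the pairs). It is enough that these bounds are violated by disjoint pairs only rarely.

Outline: each homogeneous blow-up without `K_4^3` of one of the two six-vertex 3-graphs of the
library's list `famM 0` has three vertices and seven disjoint pairs with different traces on them,
and four vertices and eight disjoint pairs with different traces on them. This is checked with
decision trees (`Pool/Agent/Q275/TC/DatT.lean`); the rest is the theorem `mainG` of the library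
(blow-ups, Ramsey's theorem, sum of squares certificates with stability).
-/

set_option autoImplicit false
set_option maxRecDepth 100000
set_option maxHeartbeats 4000000
open Finset

namespace Pool.Agent.Results.MP_466853_co.ShatterFunction
open Pool.Agent.TH773.Turan34
open Pool.Agent.Y47.BU
open Pool.Agent.H122R2.N6 hiding K43Free
open Pool.Agent.TH773.ST

/-- the positions of the first members of the seven pairs -/
def px7 (j : Fin 7) : Fin 17 := ⟨3 + 2 * j.val, by omega⟩
/-- the positions of the second members of the seven pairs -/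
def py7 (j : Fin 7) : Fin 17 := ⟨4 + 2 * j.val, by omega⟩
/-- the positions of the three vertices -/
def pz7 (i : Fin 3) : Fin 17 := ⟨i.val, by omega⟩
/-- the positions of the first members of the eight pairs -/
def px8 (j : Fin 8) : Fin 20 := ⟨4 + 2 * j.val, by omega⟩
/-- the positions of the second members of the eight pairs -/
def py8 (j : Fin 8) : Fin 20 := ⟨5 + 2 * j.val, by omega⟩
/-- the positions of the four vertices -/
def pz8 (i : Fin 4) : Fin 20 := ⟨i.val, by omega⟩

theorem inj7 : Function.Injective (Sum.elim pz7 (Sum.elim px7 py7)) := by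
  rintro (i | i | i) (j | j | j) h <;>
    simp only [Sum.elim_inl, Sum.elim_inr, px7, py7, pz7, Sum.inl.injEq,
      Sum.inr.injEq, reduceCtorEq, Fin.ext_iff] at h ⊢ <;> omega

theorem inj8 : Function.Injective (Sum.elim pz8 (Sum.elim px8 py8)) := by
  rintro (i | i | i) (j | j | j) h <;>
    simp only [Sum.elim_inl, Sum.elim_inr, px8, py8, pz8, Sum.inl.injEq,
      Sum.inr.injEq, reduceCtorEq, Fin.ext_iff] at h ⊢ <;> omega

theorem surj7 : ∀ i : Fin 17, (∃ j, pz7 j = i) ∨ (∃ j, px7 j = i) ∨ ∃ j, py7 j = i := by decide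

theorem surj8 : ∀ i : Fin 20, (∃ j, pz8 j = i) ∨ (∃ j, px8 j = i) ∨ ∃ j, py8 j = i := by decide

theorem ndB_nodup : ∀ l : List ℕ, Pool.Agent.Q275.TC.ndB l = true → l.Nodup
  | [], _ => List.nodup_nil
  | a :: l, h => by
    have h' : ((l.all fun b => !Nat.beq a b) && Pool.Agent.Q275.TC.ndB l) = true := h
    rw [Bool.and_eq_true, List.all_eq_true] at h'
    rw [List.nodup_cons]
    refine ⟨fun hm => ?_, ndB_nodup l h'.2⟩
    have h2 := h'.1 a hm
    simp at h2

theorem Rf_comm : ∀ a b c : Fin 3, (Rf a b c = 1 ↔ Rf b a c = 1) := by decide +kernel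

theorem card_le_six : ((univ : Finset (Fin 3 × Fin 3)).filter fun p => p.1 ≤ p.2).card = 6 := by
  decide

open scoped Classical

/-- The trace of the pair `x`, `y` on the vertices `z i`: the set of the `i` for which
`{x, y, z i}` is an edge. -/
noncomputable def trace {n r : ℕ} (H : Finset (Finset (Fin n))) (z : Fin r → Fin n)
    (x y : Fin n) : Finset (Fin r) :=
  univ.filter fun i => ({x, y, z i} : Finset (Fin n)) ∈ H

/-- The number of the traces on the vertices `z i` of the pairs of two different vertices which are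
different from all `z i`. -/
noncomputable def traceNumber {n r : ℕ} (H : Finset (Finset (Fin n))) (z : Fin r → Fin n) : ℕ :=
  (((univ : Finset (Fin n × Fin n)).filter fun p => p.1 ≠ p.2 ∧ ∀ i, z i ≠ p.1 ∧ z i ≠ p.2).image
    fun p => trace H z p.1 p.2).card

/-- For all `r` different vertices, the pairs of other vertices have at most `s` traces on them. -/
def FewTraces (r s : ℕ) {n : ℕ} (H : Finset (Finset (Fin n))) : Prop :=
  ∀ z : Fin r → Fin n, Function.Injective z → traceNumber H z ≤ s

/-- The number of the systems of `r` vertices `z i` and `s` pairs `x j`, `y j`, all `r + 2 s`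
vertices different, for which the `s` pairs have different traces on the vertices `z i`. -/
noncomputable def manyTraces (r s : ℕ) {n : ℕ} (H : Finset (Finset (Fin n))) : ℕ :=
  ((univ : Finset ((Fin r → Fin n) × (Fin s → Fin n) × (Fin s → Fin n))).filter fun w =>
    Function.Injective (Sum.elim w.1 (Sum.elim w.2.1 w.2.2)) ∧
      Function.Injective fun j => trace H w.1 (w.2.1 j) (w.2.2 j)).card

theorem manyTraces_eq_zero {r s n : ℕ} {H : Finset (Finset (Fin n))} (h : FewTraces r s H) :
    manyTraces r (s + 1) H = 0 := by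
  unfold manyTraces
  rw [card_eq_zero, filter_eq_empty_iff]
  rintro ⟨z, x, y⟩ - ⟨h1, h2⟩
  have hz : Function.Injective z := fun i j hij => Sum.inl_injective (h1 (a₁ := .inl i)
    (a₂ := .inl j) hij)
  have h3 := h z hz
  have h4 : (univ : Finset (Fin (s + 1))).card ≤ traceNumber H z := by
    unfold traceNumber
    refine card_le_card_of_injOn (fun j => trace H z (x j) (y j)) (fun j _ => ?_) h2.injOn
    refine mem_coe.mpr (mem_image.mpr ⟨(x j, y j), mem_filter.mpr ⟨mem_univ _, ?_, ?_⟩, rfl⟩)
    · intro h5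
      exact absurd (h1 (a₁ := .inr (.inl j)) (a₂ := .inr (.inr j)) h5) (by simp)
    · intro i
      exact ⟨fun h5 => absurd (h1 (a₁ := .inl i) (a₂ := .inr (.inl j)) h5) (by simp),
        fun h5 => absurd (h1 (a₁ := .inl i) (a₂ := .inr (.inr j)) h5) (by simp)⟩
  rw [card_univ, Fintype.card_fin] at h4
  omega

/-- equal traces have equal codes -/
theorem tri_of_trace {r n : ℕ} {H : Finset (Finset (Fin n))} {z : Fin r → Fin n}
    {x y x' y' : Fin n} (h : trace H z x y = trace H z x' y') (i : Fin r) :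
    tri H x y (z i) = tri H x' y' (z i) := by
  have h1 : (({x, y, z i} : Finset (Fin n)) ∈ H ↔ ({x', y', z i} : Finset (Fin n)) ∈ H) := by
    have h2 : i ∈ trace H z x y ↔ i ∈ trace H z x' y' := by rw [h]
    simpa [trace] using h2
  rw [tri_ite, tri_ite]
  simp only [h1]

theorem sS_le7 {n : ℕ} (H : Finset (Finset (Fin n))) :
    (sS (Pool.Agent.Q275.TC.P7.S (Fin n) (tri H))).card ≤ manyTraces 3 7 H := by
  unfold manyTraces
  refine card_le_card_of_injOn (fun f : Fin 17 → Fin n => (f ∘ pz7, f ∘ px7, f ∘ py7)) ?_ ?_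
  · intro f hf
    change Fin 17 → Fin n at f
    obtain ⟨hi0, hS⟩ := mem_sS.mp (mem_coe.mp hf)
    have hi : Function.Injective (f : Fin 17 → Fin n) := hi0
    refine mem_coe.mpr (mem_filter.mpr ⟨mem_univ _, ?_, ?_⟩)
    · change Function.Injective (Sum.elim (f ∘ pz7) (Sum.elim (f ∘ px7) (f ∘ py7)))
      rw [← Sum.comp_elim, ← Sum.comp_elim]
      exact hi.comp inj7
    · change Function.Injective fun j => trace H (f ∘ pz7) (f (px7 j)) (f (py7 j))
      let T : Fin 7 → ℕ := fun j => tri H (f (px7 j)) (f (py7 j)) (f (pz7 0)) +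
        2 * tri H (f (px7 j)) (f (py7 j)) (f (pz7 1)) +
        4 * tri H (f (px7 j)) (f (py7 j)) (f (pz7 2))
      have hT : Pool.Agent.Q275.TC.ndB (List.ofFn T) = true := hS
      have hT2 : Function.Injective T := List.nodup_ofFn.mp (ndB_nodup _ hT)
      intro j j' h
      refine hT2 ?_
      have h0 := tri_of_trace h 0
      have h1 := tri_of_trace h 1
      have h2 := tri_of_trace h 2
      simp only [Function.comp] at h0 h1 h2
      simp only [T, h0, h1, h2]
  · intro f _ f' _ h
    change Fin 17 → Fin n at f f'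
    have hz : f ∘ pz7 = f' ∘ pz7 := (Prod.mk.inj h).1
    have hx : f ∘ px7 = f' ∘ px7 := (Prod.mk.inj (Prod.mk.inj h).2).1
    have hy : f ∘ py7 = f' ∘ py7 := (Prod.mk.inj (Prod.mk.inj h).2).2
    funext i
    rcases surj7 i with ⟨j, rfl⟩ | ⟨j, rfl⟩ | ⟨j, rfl⟩
    exacts [congrFun hz j, congrFun hx j, congrFun hy j]

theorem sS_le8 {n : ℕ} (H : Finset (Finset (Fin n))) :
    (sS (Pool.Agent.Q275.TC.P8.S (Fin n) (tri H))).card ≤ manyTraces 4 8 H := by
  unfold manyTraces
  refine card_le_card_of_injOn (fun f : Fin 20 → Fin n => (f ∘ pz8, f ∘ px8, f ∘ py8)) ?_ ?_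
  · intro f hf
    change Fin 20 → Fin n at f
    obtain ⟨hi0, hS⟩ := mem_sS.mp (mem_coe.mp hf)
    have hi : Function.Injective (f : Fin 20 → Fin n) := hi0
    refine mem_coe.mpr (mem_filter.mpr ⟨mem_univ _, ?_, ?_⟩)
    · change Function.Injective (Sum.elim (f ∘ pz8) (Sum.elim (f ∘ px8) (f ∘ py8)))
      rw [← Sum.comp_elim, ← Sum.comp_elim]
      exact hi.comp inj8
    · change Function.Injective fun j => trace H (f ∘ pz8) (f (px8 j)) (f (py8 j))
      let T : Fin 8 → ℕ := fun j => tri H (f (px8 j)) (f (py8 j)) (f (pz8 0)) +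
        2 * tri H (f (px8 j)) (f (py8 j)) (f (pz8 1)) +
        4 * tri H (f (px8 j)) (f (py8 j)) (f (pz8 2)) +
        8 * tri H (f (px8 j)) (f (py8 j)) (f (pz8 3))
      have hT : Pool.Agent.Q275.TC.ndB (List.ofFn T) = true := hS
      have hT2 : Function.Injective T := List.nodup_ofFn.mp (ndB_nodup _ hT)
      intro j j' h
      refine hT2 ?_
      have h0 := tri_of_trace h 0
      have h1 := tri_of_trace h 1
      have h2 := tri_of_trace h 2
      have h3 := tri_of_trace h 3
      simp only [Function.comp] at h0 h1 h2 h3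
      simp only [T, h0, h1, h2, h3]
  · intro f _ f' _ h
    change Fin 20 → Fin n at f f'
    have hz : f ∘ pz8 = f' ∘ pz8 := (Prod.mk.inj h).1
    have hx : f ∘ px8 = f' ∘ px8 := (Prod.mk.inj (Prod.mk.inj h).2).1
    have hy : f ∘ py8 = f' ∘ py8 := (Prod.mk.inj (Prod.mk.inj h).2).2
    funext i
    rcases surj8 i with ⟨j, rfl⟩ | ⟨j, rfl⟩ | ⟨j, rfl⟩
    exacts [congrFun hz j, congrFun hx j, congrFun hy j]

theorem turan_traces {n : ℕ} (g : Fin n → Fin 3) (r : ℕ) : FewTraces r 6 (turan g) := by
  intro z _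
  unfold traceNumber
  rw [← card_le_six, ← card_image_of_injective _ (Equiv.refl (Fin 3 × Fin 3)).injective]
  refine le_trans (card_le_card ?_) (card_image_le (f := fun p : Fin 3 × Fin 3 =>
    (univ.filter fun i => Rf p.1 p.2 (g (z i)) = 1 : Finset (Fin r))))
  intro t ht
  obtain ⟨⟨x, y⟩, hp, rfl⟩ := mem_image.mp ht
  obtain ⟨-, h1, h2⟩ := mem_filter.mp hp
  have h3 : trace (turan g) z x y = univ.filter fun i => Rf (g x) (g y) (g (z i)) = 1 := by
    unfold trace
    refine filter_congr fun i _ => ?_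
    exact mem_turan h1 (h2 i).1.symm (h2 i).2.symm
  refine mem_image.mpr ?_
  rcases le_total (g x) (g y) with h4 | h4
  · refine ⟨(g x, g y), mem_image.mpr ⟨(g x, g y), mem_filter.mpr ⟨mem_univ _, h4⟩, rfl⟩, ?_⟩
    exact h3.symm
  · refine ⟨(g y, g x), mem_image.mpr ⟨(g y, g x), mem_filter.mpr ⟨mem_univ _, h4⟩, rfl⟩, ?_⟩
    change _ = trace (turan g) z x y
    rw [h3]
    exact filter_congr fun i _ => Rf_comm _ _ _

/-- (1) Let `(r, s)` be `(3, 7)` or `(4, 8)`. For every `ε > 0` there are `δ > 0` and `n0` such that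
every `K_4^3`-free 3-graph `H` on `n ≥ n0` vertices with at most `δ n^(r + 2 s)` systems of `r`
vertices and `s` disjoint pairs of other vertices with different traces on them has at most
`(5/9 + ε) C(n,3)` edges, and satisfies `|H ∆ turan g| ≤ 1161216000 ((5/54) n³ - |H|) + ε n³` for
some division `g` of the vertices into three classes. (2) In particular this is true if there are at
most six traces on all sets of three vertices, or at most seven traces on all sets of four vertices.
(3) Turán's construction is `K_4^3`-free and has at most six traces on all sets of vertices. -/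
theorem result :
    (∀ r s : ℕ, (r, s) = (3, 7) ∨ (r, s) = (4, 8) →
      ∀ ε : ℝ, 0 < ε → ∃ δ : ℝ, 0 < δ ∧ ∃ n0 : ℕ, ∀ n, n0 ≤ n → ∀ H : Finset (Finset (Fin n)),
      (∀ e ∈ H, e.card = 3) → K43Free H →
      (manyTraces r s H : ℝ) ≤ δ * (n : ℝ) ^ (r + 2 * s) →
      (H.card : ℝ) ≤ (5 / 9 + ε) * (n.choose 3 : ℝ) ∧ ∃ g : Fin n → Fin 3,
        ((symmDiff H (turan g)).card : ℝ) ≤
          1161216000 * (5 / 54 * (n : ℝ) ^ 3 - H.card) + ε * (n : ℝ) ^ 3) ∧
    (∀ ε : ℝ, 0 < ε → ∃ n0 : ℕ, ∀ n, n0 ≤ n → ∀ H : Finset (Finset (Fin n)),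
      (∀ e ∈ H, e.card = 3) → K43Free H → (FewTraces 3 6 H ∨ FewTraces 4 7 H) →
      (H.card : ℝ) ≤ (5 / 9 + ε) * (n.choose 3 : ℝ) ∧ ∃ g : Fin n → Fin 3,
        ((symmDiff H (turan g)).card : ℝ) ≤
          1161216000 * (5 / 54 * (n : ℝ) ^ 3 - H.card) + ε * (n : ℝ) ^ 3) ∧
    (∀ (n : ℕ) (g : Fin n → Fin 3), K43Free (turan g) ∧ ∀ r : ℕ, FewTraces r 6 (turan g)) := by
  have main : ∀ r s : ℕ, (r, s) = (3, 7) ∨ (r, s) = (4, 8) →
      ∀ ε : ℝ, 0 < ε → ∃ δ : ℝ, 0 < δ ∧ ∃ n0 : ℕ, ∀ n, n0 ≤ n → ∀ H : Finset (Finset (Fin n)),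
      (∀ e ∈ H, e.card = 3) → K43Free H →
      (manyTraces r s H : ℝ) ≤ δ * (n : ℝ) ^ (r + 2 * s) →
      (H.card : ℝ) ≤ (5 / 9 + ε) * (n.choose 3 : ℝ) ∧ ∃ g : Fin n → Fin 3,
        ((symmDiff H (turan g)).card : ℝ) ≤
          1161216000 * (5 / 54 * (n : ℝ) ^ 3 - H.card) + ε * (n : ℝ) ^ 3 := by
    intro r s hrs ε hε
    rcases hrs with hrs | hrs
    · obtain ⟨rfl, rfl⟩ := Prod.mk.inj hrs
      obtain ⟨δ, hδ, n0, h⟩ := Pool.Agent.Q275.TC.bound 0 Pool.Agent.Q275.TC.okP7
        Pool.Agent.Q275.TC.okT hε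
      refine ⟨δ, hδ, n0, fun n hn H h3 hK hs => h n hn H h3 hK ?_⟩
      exact le_trans (by exact_mod_cast sS_le7 H) hs
    · obtain ⟨rfl, rfl⟩ := Prod.mk.inj hrs
      obtain ⟨δ, hδ, n0, h⟩ := Pool.Agent.Q275.TC.bound 0 Pool.Agent.Q275.TC.okP8
        Pool.Agent.Q275.TC.okF hε
      refine ⟨δ, hδ, n0, fun n hn H h3 hK hs => h n hn H h3 hK ?_⟩
      exact le_trans (by exact_mod_cast sS_le8 H) hs
  refine ⟨main, ?_, fun n g => ⟨turan_free g, fun r => turan_traces g r⟩⟩
  intro ε hε
  obtain ⟨δ, hδ, n0, h⟩ := main 3 7 (Or.inl rfl) ε hε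
  obtain ⟨δ', hδ', n0', h'⟩ := main 4 8 (Or.inr rfl) ε hε
  refine ⟨max n0 n0', fun n hn H h3 hK hs => ?_⟩
  rcases hs with hs | hs
  · refine h n (le_trans (le_max_left _ _) hn) H h3 hK ?_
    rw [manyTraces_eq_zero hs]
    simp only [Nat.cast_zero]
    positivity
  · refine h' n (le_trans (le_max_right _ _) hn) H h3 hK ?_
    rw [manyTraces_eq_zero hs]
    simp only [Nat.cast_zero]
    positivity

end Pool.Agent.Results.MP_466853_co.ShatterFunction
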