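import Pool.Agent.Q275.TC.DatS

/-!
# Turán's `(3,4)`-problem: 3-graphs without certain systems of traces on three vertices

Turán's conjecture says that a `K_4^3`-free 3-graph on `n` vertices has at most
`(5/9 + o(1)) C(n,3)` edges. The trace of a pair `x, y` of vertices on three other vertices
`z 0, z 1, z 2` is the set of the `i` for which `{x, y, z i}` is an edge. Here the conjecture is
proved, together with stability, for the `K_4^3`-free 3-graphs in which there are no (or few) three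
vertices and six disjoint pairs with the traces `∅, 0, 1, 01, 2, 02`, or no three vertices and five
disjoint pairs with the traces `∅, 0, 01, 2, 012`, or no three vertices and six disjoint pairs with
the traces `∅, 0, 1, 01, 02, 12`.

Up to permutations of the three vertices there are six minimal systems of traces which do not occur
in Turán's construction, and the theorem shows that the bound holds if one of five of them does not
occur: `∅, 0, 1` and `∅, 0, 01` (half-graphs between vertices and pairs) and `∅, 01, 02` and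
`012, 0, 2` and `012, 0, 01`.

Outline: each homogeneous blow-up without `K_4^3` of one of the two six-vertex 3-graphs of the
library's list `famM 0` (`famM 2` for the third system) contains the system. This is checked with
decision trees (`Pool/Agent/Q275/TC/DatS.lean`); the rest is the theorem `mainG` of the library
(blow-ups, Ramsey's theorem, sum of squares certificates with stability).
-/

set_option autoImplicit false
set_option maxRecDepth 100000
set_option maxHeartbeats 4000000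
open Finset

namespace Pool.Agent.Results.MP_466853_co.TraceSystems
open Pool.Agent.TH773.Turan34
open Pool.Agent.Y47.BU
open Pool.Agent.H122R2.N6 hiding K43Free
open Pool.Agent.TH773.ST

/-- the traces `∅, 0, 1, 01, 2, 02` -/
def T1 : Fin 6 → Fin 3 → Bool :=
  ![![false, false, false], ![true, false, false], ![false, true, false], ![true, true, false], ![false, false, true], ![true, false, true]]

/-- the traces `∅, 0, 01, 2, 012` -/
def T2 : Fin 5 → Fin 3 → Bool :=
  ![![false, false, false], ![true, false, false], ![true, true, false], ![false, false, true], ![true, true, true]]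

/-- the traces `∅, 0, 1, 01, 02, 12` -/
def T3 : Fin 6 → Fin 3 → Bool :=
  ![![false, false, false], ![true, false, false], ![false, true, false], ![true, true, false], ![true, false, true], ![false, true, true]]

/-- the traces `∅, 0, 1` -/
def M1 : Fin 3 → Fin 3 → Bool := ![![false, false, false], ![true, false, false], ![false, true, false]]

/-- the traces `∅, 0, 01` -/
def M2 : Fin 3 → Fin 3 → Bool := ![![false, false, false], ![true, false, false], ![true, true, false]]

/-- the traces `∅, 01, 02` -/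
def M3 : Fin 3 → Fin 3 → Bool := ![![false, false, false], ![true, true, false], ![true, false, true]]

/-- the traces `012, 0, 2` -/
def M4 : Fin 3 → Fin 3 → Bool := ![![true, true, true], ![true, false, false], ![false, false, true]]

/-- the traces `012, 0, 01` -/
def M5 : Fin 3 → Fin 3 → Bool := ![![true, true, true], ![true, false, false], ![true, true, false]]

theorem sub1 : (∀ j i, T1 (![0, 1, 2] j) i = M1 j i) ∧ (∀ j i, T1 (![0, 1, 3] j) i = M2 j i) ∧
    (∀ j i, T1 (![0, 3, 5] j) i = M3 j i) := by decide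

theorem sub2 : (∀ j i, T2 (![4, 1, 3] j) i = M4 j i) ∧ (∀ j i, T2 (![4, 1, 2] j) i = M5 j i) := by
  decide

theorem inj1 : ∀ i j : Fin 3, (![0, 1, 2] : Fin 3 → Fin 6) i = (![0, 1, 2] : Fin 3 → Fin 6) j →
    i = j := by decide
theorem inj2 : ∀ i j : Fin 3, (![0, 1, 3] : Fin 3 → Fin 6) i = (![0, 1, 3] : Fin 3 → Fin 6) j →
    i = j := by decide
theorem inj3 : ∀ i j : Fin 3, (![0, 3, 5] : Fin 3 → Fin 6) i = (![0, 3, 5] : Fin 3 → Fin 6) j →
    i = j := by decide
theorem inj4 : ∀ i j : Fin 3, (![4, 1, 3] : Fin 3 → Fin 5) i = (![4, 1, 3] : Fin 3 → Fin 5) j →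
    i = j := by decide
theorem inj5 : ∀ i j : Fin 3, (![4, 1, 2] : Fin 3 → Fin 5) i = (![4, 1, 2] : Fin 3 → Fin 5) j →
    i = j := by decide

/-- the position of the first member of the pair `j` -/
def px {s : ℕ} (j : Fin s) : Fin (3 + 2 * s) := ⟨3 + 2 * j.val, by omega⟩
/-- the position of the second member of the pair `j` -/
def py {s : ℕ} (j : Fin s) : Fin (3 + 2 * s) := ⟨4 + 2 * j.val, by omega⟩
/-- the position of the vertex `i` -/
def pz {s : ℕ} (i : Fin 3) : Fin (3 + 2 * s) := ⟨i.val, by omega⟩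

theorem inj_pos (s : ℕ) : Function.Injective
    (Sum.elim (pz (s := s)) (Sum.elim (px (s := s)) (py (s := s)))) := by
  rintro (i | i | i) (j | j | j) h <;>
    simp only [Sum.elim_inl, Sum.elim_inr, px, py, pz, Sum.inl.injEq,
      Sum.inr.injEq, reduceCtorEq, Fin.ext_iff] at h ⊢ <;> omega

theorem surj_pos {s : ℕ} (i : Fin (3 + 2 * s)) :
    (∃ j, pz j = i) ∨ (∃ j : Fin s, px j = i) ∨ ∃ j : Fin s, py j = i := by
  rcases lt_or_ge i.val 3 with h | h
  · exact Or.inl ⟨⟨i.val, h⟩, Fin.ext rfl⟩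
  · have hi := i.isLt
    rcases Nat.even_or_odd (i.val - 3) with h1 | h1
    · obtain ⟨r, hr⟩ := h1
      exact Or.inr (Or.inl ⟨⟨r, by omega⟩, Fin.ext (by simp only [px]; omega)⟩)
    · obtain ⟨r, hr⟩ := h1
      exact Or.inr (Or.inr ⟨⟨r, by omega⟩, Fin.ext (by simp only [py]; omega)⟩)

/-- the values of three different vertices and a pair in Turán's construction -/
theorem turan_sys : ∀ a b c : Fin 3, ∀ t ∈ [M1, M2, M3, M4, M5], ∃ j : Fin 3, ∀ p q : Fin 3,
    ¬ ((Rf p q a = 1 ↔ t j 0 = true) ∧ (Rf p q b = 1 ↔ t j 1 = true) ∧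
      (Rf p q c = 1 ↔ t j 2 = true)) := by
  decide +kernel

open scoped Classical

/-- The `s` pairs `x j`, `y j` and the vertices `z i` are disjoint, and the trace of the pair `j` on
the vertices `z i` consists of the `i` with `t j i = true`. -/
def IsSystem {s n : ℕ} (t : Fin s → Fin 3 → Bool) (H : Finset (Finset (Fin n)))
    (z : Fin 3 → Fin n) (x y : Fin s → Fin n) : Prop :=
  Function.Injective (Sum.elim z (Sum.elim x y)) ∧
    ∀ j i, ({x j, y j, z i} : Finset (Fin n)) ∈ H ↔ t j i = true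

/-- The number of the systems with the traces `t`. -/
noncomputable def systems {s n : ℕ} (t : Fin s → Fin 3 → Bool) (H : Finset (Finset (Fin n))) : ℕ :=
  ((univ : Finset ((Fin 3 → Fin n) × (Fin s → Fin n) × (Fin s → Fin n))).filter fun w =>
    IsSystem t H w.1 w.2.1 w.2.2).card

/-- No system with the traces `t` occurs in `H`. -/
def Avoids {s n : ℕ} (t : Fin s → Fin 3 → Bool) (H : Finset (Finset (Fin n))) : Prop :=
  ∀ (z : Fin 3 → Fin n) (x y : Fin s → Fin n), ¬ IsSystem t H z x y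

/-- Turán's bound and stability for the `K_4^3`-free 3-graphs with few systems with the traces
`t`. -/
def FewSuffice {s : ℕ} (t : Fin s → Fin 3 → Bool) : Prop :=
  ∀ ε : ℝ, 0 < ε → ∃ δ : ℝ, 0 < δ ∧ ∃ n0 : ℕ, ∀ n, n0 ≤ n → ∀ H : Finset (Finset (Fin n)),
    (∀ e ∈ H, e.card = 3) → K43Free H → (systems t H : ℝ) ≤ δ * (n : ℝ) ^ (3 + 2 * s) →
    (H.card : ℝ) ≤ (5 / 9 + ε) * (n.choose 3 : ℝ) ∧ ∃ g : Fin n → Fin 3,
      ((symmDiff H (turan g)).card : ℝ) ≤
        1161216000 * (5 / 54 * (n : ℝ) ^ 3 - H.card) + ε * (n : ℝ) ^ 3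

theorem avoids_mono {r s n : ℕ} {t : Fin s → Fin 3 → Bool} {t' : Fin r → Fin 3 → Bool}
    {H : Finset (Finset (Fin n))} (e : Fin r → Fin s) (he : Function.Injective e)
    (h : ∀ j i, t (e j) i = t' j i) (ha : Avoids t' H) : Avoids t H := by
  rintro z x y ⟨h1, h2⟩
  refine ha z (x ∘ e) (y ∘ e) ⟨?_, fun j i => ?_⟩
  · have h3 : Sum.elim z (Sum.elim (x ∘ e) (y ∘ e)) =
        Sum.elim z (Sum.elim x y) ∘ Sum.map id (Sum.map e e) := by
      funext u
      rcases u with u | u | u <;> rfl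
    rw [h3]
    exact h1.comp (Function.Injective.sumMap Function.injective_id (he.sumMap he))
  · rw [← h j i]
    exact h2 (e j) i

theorem systems_eq_zero {s n : ℕ} {t : Fin s → Fin 3 → Bool} {H : Finset (Finset (Fin n))}
    (h : Avoids t H) : systems t H = 0 := by
  unfold systems
  rw [card_eq_zero, filter_eq_empty_iff]
  exact fun w _ => h w.1 w.2.1 w.2.2

theorem sys_le {s n : ℕ} (t : Fin s → Fin 3 → Bool)
    (L : List (Fin (3 + 2 * s) × Fin (3 + 2 * s) × Fin (3 + 2 * s))) (Q : List ℕ → Bool)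
    (hL : ∀ (V : Type) (E : V → V → V → ℕ) (w : Fin (3 + 2 * s) → V),
      Q (L.map fun x => E (w x.1) (w x.2.1) (w x.2.2)) = true →
      ∀ j i, E (w (px j)) (w (py j)) (w (pz i)) = (t j i).toNat)
    (H : Finset (Finset (Fin n))) :
    (sS (Pool.Agent.Q275.TC.Sp.S ⟨3 + 2 * s, L, Q⟩ (Fin n) (tri H))).card ≤ systems t H := by
  unfold systems
  refine card_le_card_of_injOn (fun f : Fin (3 + 2 * s) → Fin n => (f ∘ pz, f ∘ px, f ∘ py)) ?_ ?_
  · intro f hf
    change Fin (3 + 2 * s) → Fin n at f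
    obtain ⟨hi0, hS⟩ := mem_sS.mp (mem_coe.mp hf)
    have hi : Function.Injective (f : Fin (3 + 2 * s) → Fin n) := hi0
    refine mem_coe.mpr (mem_filter.mpr ⟨mem_univ _, ?_, fun j i => ?_⟩)
    · change Function.Injective (Sum.elim (f ∘ pz) (Sum.elim (f ∘ px) (f ∘ py)))
      rw [← Sum.comp_elim, ← Sum.comp_elim]
      exact hi.comp (inj_pos s)
    · change ({f (px j), f (py j), f (pz i)} : Finset (Fin n)) ∈ H ↔ t j i = true
      rw [← tri_iff, hL _ _ f hS j i]
      cases t j i <;> simp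
  · intro f _ f' _ h
    change Fin (3 + 2 * s) → Fin n at f f'
    have hz : f ∘ pz = f' ∘ pz := (Prod.mk.inj h).1
    have hx : f ∘ px = f' ∘ px := (Prod.mk.inj (Prod.mk.inj h).2).1
    have hy : f ∘ py = f' ∘ py := (Prod.mk.inj (Prod.mk.inj h).2).2
    funext i
    rcases surj_pos i with ⟨j, rfl⟩ | ⟨j, rfl⟩ | ⟨j, rfl⟩
    exacts [congrFun hz j, congrFun hx j, congrFun hy j]

theorem le1 {n : ℕ} (H : Finset (Finset (Fin n))) :
    (sS (Pool.Agent.Q275.TC.PS1.S (Fin n) (tri H))).card ≤ systems T1 H := by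
  refine sys_le (s := 6) T1 _ _ ?_ H
  intro V E w h
  have h1 : ([E (w 3) (w 4) (w 0), E (w 3) (w 4) (w 1), E (w 3) (w 4) (w 2), E (w 5) (w 6) (w 0), 
      E (w 5) (w 6) (w 1), E (w 5) (w 6) (w 2), E (w 7) (w 8) (w 0), E (w 7) (w 8) (w 1), 
      E (w 7) (w 8) (w 2), E (w 9) (w 10) (w 0), E (w 9) (w 10) (w 1), E (w 9) (w 10) (w 2), 
      E (w 11) (w 12) (w 0), E (w 11) (w 12) (w 1), E (w 11) (w 12) (w 2), 
      E (w 13) (w 14) (w 0), E (w 13) (w 14) (w 1), E (w 13) (w 14) (w 2)] : List ℕ) =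
      [0, 0, 0, 1, 0, 0, 0, 1, 0, 1, 1, 0, 0, 0, 1, 1, 0, 1] := eq_of_beq h
  simp only [List.cons.injEq, and_true] at h1
  obtain ⟨q1, q2, q3, q4, q5, q6, q7, q8, q9, q10, q11, q12, q13, q14, q15, q16, q17, q18⟩ := h1
  intro j i
  fin_cases j <;> fin_cases i
  exacts [q1, q2, q3, q4, q5, q6, q7, q8, q9, q10, q11, q12, q13, q14, q15, q16, q17, q18]

theorem le2 {n : ℕ} (H : Finset (Finset (Fin n))) :
    (sS (Pool.Agent.Q275.TC.PS2.S (Fin n) (tri H))).card ≤ systems T2 H := by
  refine sys_le (s := 5) T2 _ _ ?_ H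
  intro V E w h
  have h1 : ([E (w 3) (w 4) (w 0), E (w 3) (w 4) (w 1), E (w 3) (w 4) (w 2), E (w 5) (w 6) (w 0), 
      E (w 5) (w 6) (w 1), E (w 5) (w 6) (w 2), E (w 7) (w 8) (w 0), E (w 7) (w 8) (w 1), 
      E (w 7) (w 8) (w 2), E (w 9) (w 10) (w 0), E (w 9) (w 10) (w 1), E (w 9) (w 10) (w 2), 
      E (w 11) (w 12) (w 0), E (w 11) (w 12) (w 1), E (w 11) (w 12) (w 2)] : List ℕ) =
      [0, 0, 0, 1, 0, 0, 1, 1, 0, 0, 0, 1, 1, 1, 1] := eq_of_beq h
  simp only [List.cons.injEq, and_true] at h1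
  obtain ⟨q1, q2, q3, q4, q5, q6, q7, q8, q9, q10, q11, q12, q13, q14, q15⟩ := h1
  intro j i
  fin_cases j <;> fin_cases i
  exacts [q1, q2, q3, q4, q5, q6, q7, q8, q9, q10, q11, q12, q13, q14, q15]

theorem le3 {n : ℕ} (H : Finset (Finset (Fin n))) :
    (sS (Pool.Agent.Q275.TC.PS3.S (Fin n) (tri H))).card ≤ systems T3 H := by
  refine sys_le (s := 6) T3 _ _ ?_ H
  intro V E w h
  have h1 : ([E (w 3) (w 4) (w 0), E (w 3) (w 4) (w 1), E (w 3) (w 4) (w 2), E (w 5) (w 6) (w 0), 
      E (w 5) (w 6) (w 1), E (w 5) (w 6) (w 2), E (w 7) (w 8) (w 0), E (w 7) (w 8) (w 1), 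
      E (w 7) (w 8) (w 2), E (w 9) (w 10) (w 0), E (w 9) (w 10) (w 1), E (w 9) (w 10) (w 2), 
      E (w 11) (w 12) (w 0), E (w 11) (w 12) (w 1), E (w 11) (w 12) (w 2), 
      E (w 13) (w 14) (w 0), E (w 13) (w 14) (w 1), E (w 13) (w 14) (w 2)] : List ℕ) =
      [0, 0, 0, 1, 0, 0, 0, 1, 0, 1, 1, 0, 1, 0, 1, 0, 1, 1] := eq_of_beq h
  simp only [List.cons.injEq, and_true] at h1
  obtain ⟨q1, q2, q3, q4, q5, q6, q7, q8, q9, q10, q11, q12, q13, q14, q15, q16, q17, q18⟩ := h1
  intro j i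
  fin_cases j <;> fin_cases i
  exacts [q1, q2, q3, q4, q5, q6, q7, q8, q9, q10, q11, q12, q13, q14, q15, q16, q17, q18]

theorem turan_avoids {n : ℕ} (g : Fin n → Fin 3) (t : Fin 3 → Fin 3 → Bool)
    (ht : t ∈ [M1, M2, M3, M4, M5]) : Avoids t (turan g) := by
  rintro z x y ⟨h1, h2⟩
  obtain ⟨j, hj⟩ := turan_sys (g (z 0)) (g (z 1)) (g (z 2)) t ht
  have hxy : x j ≠ y j := fun h5 =>
    absurd (h1 (a₁ := .inr (.inl j)) (a₂ := .inr (.inr j)) h5) (by simp)
  have hxz : ∀ i, x j ≠ z i := fun i h5 =>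
    absurd (h1 (a₁ := .inr (.inl j)) (a₂ := .inl i) h5) (by simp)
  have hyz : ∀ i, y j ≠ z i := fun i h5 =>
    absurd (h1 (a₁ := .inr (.inr j)) (a₂ := .inl i) h5) (by simp)
  refine hj (g (x j)) (g (y j)) ⟨?_, ?_, ?_⟩ <;>
    rw [← mem_turan hxy (hxz _) (hyz _)] <;> exact h2 j _

/-- (1) Let `t` be one of the systems of traces `∅, 0, 1, 01, 2, 02` and `∅, 0, 01, 2, 012` and
`∅, 0, 1, 01, 02, 12`, with `s` members. For every `ε > 0` there are `δ > 0` and `n0` such that every
`K_4^3`-free 3-graph `H` on `n ≥ n0` vertices which contains at most `δ n^(3 + 2 s)` systems of three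
vertices and `s` disjoint pairs with the traces `t` has at most `(5/9 + ε) C(n,3)` edges, and
satisfies `|H ∆ turan g| ≤ 1161216000 ((5/54) n³ - |H|) + ε n³` for some division `g` of the vertices
into three classes. (2) This is true in particular if one of the systems of traces `∅, 0, 1`,
`∅, 0, 01`, `∅, 01, 02`, `012, 0, 2`, `012, 0, 01` does not occur in `H` (for three disjoint pairs).
(3) Turán's construction is `K_4^3`-free, and none of these five systems occurs in it. -/
theorem result :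
    (FewSuffice T1 ∧ FewSuffice T2 ∧ FewSuffice T3) ∧
    (∀ ε : ℝ, 0 < ε → ∃ n0 : ℕ, ∀ n, n0 ≤ n → ∀ H : Finset (Finset (Fin n)),
      (∀ e ∈ H, e.card = 3) → K43Free H → (∃ t ∈ [M1, M2, M3, M4, M5], Avoids t H) →
      (H.card : ℝ) ≤ (5 / 9 + ε) * (n.choose 3 : ℝ) ∧ ∃ g : Fin n → Fin 3,
        ((symmDiff H (turan g)).card : ℝ) ≤
          1161216000 * (5 / 54 * (n : ℝ) ^ 3 - H.card) + ε * (n : ℝ) ^ 3) ∧
    (∀ (n : ℕ) (g : Fin n → Fin 3), K43Free (turan g) ∧
      ∀ t ∈ [M1, M2, M3, M4, M5], Avoids t (turan g)) := by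
  have main : FewSuffice T1 ∧ FewSuffice T2 ∧ FewSuffice T3 := by
    refine ⟨?_, ?_, ?_⟩
    · intro ε hε
      obtain ⟨δ, hδ, n0, h⟩ := Pool.Agent.Q275.TC.bound 0 Pool.Agent.Q275.TC.okPS1
        Pool.Agent.Q275.TC.okS1 hε
      refine ⟨δ, hδ, n0, fun n hn H h3 hK hs => h n hn H h3 hK ?_⟩
      exact le_trans (by exact_mod_cast le1 H) hs
    · intro ε hε
      obtain ⟨δ, hδ, n0, h⟩ := Pool.Agent.Q275.TC.bound 0 Pool.Agent.Q275.TC.okPS2
        Pool.Agent.Q275.TC.okS2 hε
      refine ⟨δ, hδ, n0, fun n hn H h3 hK hs => h n hn H h3 hK ?_⟩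
      exact le_trans (by exact_mod_cast le2 H) hs
    · intro ε hε
      obtain ⟨δ, hδ, n0, h⟩ := Pool.Agent.Q275.TC.bound 2 Pool.Agent.Q275.TC.okPS3
        Pool.Agent.Q275.TC.okS3 hε
      refine ⟨δ, hδ, n0, fun n hn H h3 hK hs => h n hn H h3 hK ?_⟩
      exact le_trans (by exact_mod_cast le3 H) hs
  refine ⟨main, ?_, fun n g => ⟨turan_free g, fun t ht => turan_avoids g t ht⟩⟩
  intro ε hε
  obtain ⟨δ, hδ, n0, h⟩ := main.1 ε hε
  obtain ⟨δ', hδ', n0', h'⟩ := main.2.1 ε hε
  refine ⟨max n0 n0', fun n hn H h3 hK hs => ?_⟩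
  have key : Avoids T1 H ∨ Avoids T2 H := by
    obtain ⟨t, ht, ha⟩ := hs
    simp only [List.mem_cons, List.not_mem_nil, or_false] at ht
    rcases ht with rfl | rfl | rfl | rfl | rfl
    · exact Or.inl (avoids_mono ![0, 1, 2] inj1 sub1.1 ha)
    · exact Or.inl (avoids_mono ![0, 1, 3] inj2 sub1.2.1 ha)
    · exact Or.inl (avoids_mono ![0, 3, 5] inj3 sub1.2.2 ha)
    · exact Or.inr (avoids_mono ![4, 1, 3] inj4 sub2.1 ha)
    · exact Or.inr (avoids_mono ![4, 1, 2] inj5 sub2.2 ha)
  rcases key with hs | hs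
  · refine h n (le_trans (le_max_left _ _) hn) H h3 hK ?_
    rw [systems_eq_zero hs]
    simp only [Nat.cast_zero]
    positivity
  · refine h' n (le_trans (le_max_right _ _) hn) H h3 hK ?_
    rw [systems_eq_zero hs]
    simp only [Nat.cast_zero]
    positivity

end Pool.Agent.Results.MP_466853_co.TraceSystems
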